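import Pool.Agent.R323.NF.V

/-!
# MP_90787a_nt: uniform boundedness over all number fields of degree at most `D`, for all but few
# conjugacy classes of rational maps

For every `D`, every `d ≥ 2` and every `ε > 0` there are `N` and `C` such that for every `X ≥ 1` the
following holds.  Consider all pairs `(K, F)` of a number field `K` of degree at most `D` and an
endomorphism `F` of degree `d` of the projective line over `K` of height at most `X`, which has more
than `N` preperiodic points in `P¹(K)`.  At most `C X ^ ε` such pairs are pairwise non-conjugate, where
`(K, F)` and `(L, G)` are conjugate if a coordinate change over the compositum `K L` takes `F` to `G`.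
In particular, the exceptional maps over all number fields of degree at most `D` lie in at most
`C X ^ ε` conjugacy classes over the algebraic numbers, and for each single number field `K` of degree
at most `D` the exceptional maps over `K` lie in at most `C X ^ ε` conjugacy classes over `K`, with `N`
and `C` independent of `K`.  There is no restriction to a family of maps.

Proof.  Suppose not.  Then there are families of pairwise non-conjugate pairs with more than
`ν X_ν ^ ε` members and with preperiodic points whose first `ν` iterates are different.  The height of
the image of a point is compared with the height of the point by the product formula and the resultant,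
so all the iterates have height at most a power of `X_ν`.  The field generated by the coefficients of
the map and the coordinates of the point is generated by an algebraic integer `θ` of size at most a
power of `X_ν`, and with the trace form the map, the point and `θ` are described by a vector `t` of
integers of size at most a power of `X_ν`: the coefficients of the minimal polynomial of `θ` and the
coordinates with respect to the powers of `θ`.  In an ultraproduct we get a generic internal set of such
vectors; the polynomials in `t` and `θ` which vanish on it form a prime ideal.  The coordinates of the
`n`-th iterate with respect to the powers of `θ` are quotients of small height of polynomials in `t`, so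
by the determinant method they satisfy algebraic relations of degree bounded independently of `n`.
Hence the orbit of the generic point has bounded height over each function field, its Green pairings
vanish, and its cross ratios are constant.  So on the generic set the cross ratios take boundedly many
values, and two different members have orbits with the same cross ratios; the coordinate change which
takes one orbit to the other conjugates the maps and is defined over the compositum of the fields.
-/

set_option autoImplicit false

namespace Pool.Agent.Results.MP_90787a_nt.FewExceptionalClasses

/-- The algebraic numbers; all number fields are subfields of this field. -/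
abbrev Qbar : Type := AlgebraicClosure ℚ

/-- The value at `v` of the pair `F` of binary forms of degree `d`: `F i j` is the coefficient of
`x ^ j y ^ (d - j)` in the `i`-th form. -/
def act {d : ℕ} {K : Type} [Field K] (F : Fin 2 → Fin (d + 1) → K) (v : Fin 2 → K) : Fin 2 → K :=
  fun i => ∑ j : Fin (d + 1), F i j * v 0 ^ (j : ℕ) * v 1 ^ (d - (j : ℕ))

/-- The set of the `K`-rational preperiodic points: the points `p` of the projective line over `K` such
that the `n`-th and the `m`-th iterate at `p` are proportional for some `m < n`. -/
def preperiodic {d : ℕ} {K : Type} [Field K] (F : Fin 2 → Fin (d + 1) → K) :
    Set (Projectivization K (Fin 2 → K)) :=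
  {p | ∃ m n : ℕ, m < n ∧ ∃ c : K, c ≠ 0 ∧ (act F)^[n] p.rep = c • (act F)^[m] p.rep}

/-- The height over `K` (relative, multiplicative) of the point of projective space given by the
coefficients. -/
noncomputable def height {d : ℕ} {K : Type} [Field K] [NumberField K]
    (F : Fin 2 → Fin (d + 1) → K) : ℝ :=
  Height.mulHeight (fun p : Fin 2 × Fin (d + 1) => F p.1 p.2)

/-- A rational map over a number field: a number field `K` inside the algebraic numbers and two binary
forms of degree `d` over `K`. -/
structure Pair (d : ℕ) where
  /-- the field -/
  K : IntermediateField ℚ Qbar
  /-- it is a number field -/
  [numberField : NumberField K]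
  /-- the coefficients -/
  F : Fin 2 → Fin (d + 1) → K

attribute [instance] Pair.numberField

variable {d : ℕ}

/-- The pair of forms as a pair of forms over the algebraic numbers. -/
def Pair.ext (φ : Pair d) : Fin 2 → Fin (d + 1) → Qbar := fun i j => (φ.F i j : Qbar)

/-- The two forms have no common zero in the projective line over the algebraic numbers: they define
an endomorphism of the projective line of degree `d` over `K`. -/
def Pair.IsEndomorphism (φ : Pair d) : Prop := ∀ v : Fin 2 → Qbar, act φ.ext v = 0 → v = 0

/-- The endomorphism has height at most `X`, the field has degree at most `D`, and there are more than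
`N` preperiodic points in the projective line over the field. -/
def Pair.Exceptional (D N X : ℕ) (φ : Pair d) : Prop :=
  Module.finrank ℚ φ.K ≤ D ∧ height φ.F ≤ X ∧ (N : ℕ∞) < (preperiodic φ.F).encard

/-- The endomorphisms are conjugate over the compositum of the two number fields: for an invertible
matrix `A` with entries in the compositum we have `G (A v) = A (F v)` in the projective line over the
algebraic numbers for all `v`. -/
def Conjugate (φ ψ : Pair d) : Prop :=
  ∃ A : Matrix (Fin 2) (Fin 2) Qbar, (∀ i j, A i j ∈ φ.K ⊔ ψ.K) ∧ A.det ≠ 0 ∧
    ∀ v : Fin 2 → Qbar, v ≠ 0 → ∃ c : Qbar, c ≠ 0 ∧
      act ψ.ext (A.mulVec v) = c • A.mulVec (act φ.ext v)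

/-- **Few exceptional conjugacy classes over number fields.**  For all `D`, `d ≥ 2` and `ε > 0` there
are `N` and `C` such that for `X ≥ 1` every finite set of pairs `(K, F)` of a number field `K` of degree
at most `D` and an endomorphism `F` of degree `d` of the projective line over `K` of height at most `X`
with more than `N` preperiodic points in `P¹(K)`, such that different pairs are not conjugate over the
compositum of their fields, has at most `C X ^ ε` elements. -/
theorem result (D d : ℕ) (hd : 2 ≤ d) (ε : ℝ) (hε : 0 < ε) :
    ∃ (N : ℕ) (C : ℝ), ∀ X : ℕ, 1 ≤ X → ∀ S : Finset (Pair d),
      (∀ φ ∈ S, φ.IsEndomorphism ∧ φ.Exceptional D N X) →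
      (∀ φ ∈ S, ∀ ψ ∈ S, φ ≠ ψ → ¬ Conjugate φ ψ) →
      (S.card : ℝ) ≤ C * (X : ℝ) ^ ε := by
  obtain ⟨N, C, h⟩ := Pool.Agent.R323.main' d D hd ε hε
  refine ⟨N, C, fun X hX S hS hconj => ?_⟩
  have h1 := h X hX S (fun φ => φ.1.K) (fun φ => φ.1.F) (fun φ => ?_) (fun φ ψ hne => ?_)
  · rwa [Fintype.card_coe] at h1
  · obtain ⟨h2, h3, h4, h5⟩ := hS φ.1 φ.2
    exact ⟨h3, h2, h4, Pool.Agent.R323.many_of' φ.1.F N h5⟩
  · exact hconj φ.1 φ.2 ψ.1 ψ.2 fun h6 => hne (Subtype.ext h6)

end Pool.Agent.Results.MP_90787a_nt.FewExceptionalClasses
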