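import Pool.Agent.R414.EF.Pl

/-!
# The limit law of the preperiodic points of bounded degree of the polynomials over `ℚ`

Let `D ≥ 1` and `d ≥ d₀(D)`. Among the integral vectors `(b, c_0, ..., c_d)` with entries of absolute
value at most `H` and `b c_d ≠ 0` take those for which the polynomial `(c_0 + ... + c_d z^d) / b` has
at least one preperiodic point `z ≠ ∞` of degree at most `D` over `ℚ`. Their number is asymptotically
`κ H^(d + 1)` with some `κ > 0`; for 100 percent of them there is exactly one such point, it is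
rational and a fixed point, and its distribution converges: there is a probability measure `π` on `ℚ`
such that for every `z ∈ ℚ` the proportion of those with `z` as a fixed point and as the only
preperiodic point of degree at most `D` converges to `π(z)`; all `π(z)` are positive.

Proof. The number of vectors with at least two such points is `O(H^d)`. A unique preperiodic point is
fixed, and it is equal to its conjugates. The vectors whose polynomial fixes `z ∈ ℚ` form a lattice
of rank `d + 1`, so there are asymptotically `a(z) H^(d + 1)` of them, and the number of vectors with a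
fixed point `z ∈ ℚ` of height at least `2^κ` is `O(2^(-κ) H^(d + 1))`, uniformly in `H` and `κ`.
-/

set_option autoImplicit false

open Filter Topology

namespace Pool.Agent.Results.MP_90787a_nt.FixedPointLimitLaw

/-- The integral vectors `(b, c_0, ..., c_d)`. -/
abbrev Coeffs (d : ℕ) : Type := ℤ × (Fin (d + 1) → ℤ)

/-- All entries have absolute value at most `H`. -/
def Small {d : ℕ} (H : ℕ) (v : Coeffs d) : Prop := |v.1| ≤ H ∧ ∀ i, |v.2 i| ≤ H

/-- The polynomial map `z ↦ (c_0 + c_1 z + ... + c_d z^d) / b`. -/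
noncomputable def poly {d : ℕ} (v : Coeffs d) (z : ℂ) : ℂ :=
  (∑ i, (v.2 i : ℂ) * z ^ (i : ℕ)) / v.1

/-- The map is defined and has degree `d`: `b ≠ 0` and `c_d ≠ 0`. -/
def HasDegree {d : ℕ} (v : Coeffs d) : Prop := v.1 ≠ 0 ∧ v.2 (Fin.last d) ≠ 0

/-- `z` is a preperiodic point of degree at most `D` over `ℚ`: it lies in a number field of degree at
most `D`, and two different iterates of it are equal. -/
def IsPreperiodic {d : ℕ} (D : ℕ) (v : Coeffs d) (z : ℂ) : Prop :=
  (∃ K : IntermediateField ℚ ℂ, FiniteDimensional ℚ K ∧ Module.finrank ℚ K ≤ D ∧ z ∈ K) ∧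
    ∃ m n : ℕ, m < n ∧ (poly v)^[n] z = (poly v)^[m] z

/-- The vectors of the box which give polynomials of degree `d` with a preperiodic point of degree at
most `D`. -/
def WithPoint (D d H : ℕ) : Set (Coeffs d) :=
  {v | Small H v ∧ HasDegree v ∧ ∃ z, IsPreperiodic D v z}

/-- The vectors of the box which give polynomials of degree `d` for which the rational number `z` is a
fixed point and the only preperiodic point of degree at most `D`. -/
def OnlyPoint (D d H : ℕ) (z : ℚ) : Set (Coeffs d) :=
  {v | Small H v ∧ HasDegree v ∧ poly v z = z ∧ ∀ w, IsPreperiodic D v w → w = z}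

/-- **The limit law.** For all `D ≥ 1` and `d ≥ d₀(D)` there are `κ > 0` and a probability measure
`π` on `ℚ` with `π(z) > 0` for all `z`, such that the number of the vectors of the box which give
polynomials with a preperiodic point of degree at most `D` is asymptotically `κ H^(d + 1)`, and for
every `z ∈ ℚ` the proportion of those of them for which `z` is a fixed point and the only preperiodic
point of degree at most `D` converges to `π(z)`. -/
theorem result (D : ℕ) (hD : 1 ≤ D) : ∃ d₀ : ℕ, ∀ d, d₀ ≤ d →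
    ∃ (κ : ℝ) (π : ℚ → ℝ), 0 < κ ∧ (∀ z, 0 < π z) ∧ HasSum π 1 ∧
      Tendsto (fun H : ℕ => ((WithPoint D d H).ncard : ℝ) / (H : ℝ) ^ (d + 1)) atTop (𝓝 κ) ∧
      ∀ z : ℚ, Tendsto (fun H : ℕ => ((OnlyPoint D d H z).ncard : ℝ) / (WithPoint D d H).ncard)
        atTop (𝓝 (π z)) := by
  obtain ⟨d₀, hd₀⟩ := Pool.Agent.R414.EF.pol_limit D hD
  refine ⟨d₀, fun d hd => ?_⟩
  obtain ⟨a, κ, hκ, ha, hsum, hS, hE⟩ := hd₀ d hd
  have hsmall : ∀ (H : ℕ) (v : Coeffs d), Small H v ↔
      Pool.Agent.R414.EC.toVec v ∈ Pool.Agent.R414.EB.vbox d H := by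
    intro H v
    rw [Pool.Agent.R414.EB.mem_vbox]
    have h3 : |(Pool.Agent.R414.EC.toVec v).2.1| ≤ (H : ℤ) := by
      simp [Pool.Agent.R414.EC.toVec]
    exact ⟨fun h => ⟨h.1, h3, h.2⟩, fun h => ⟨h.1, h.2.2⟩⟩
  have e1 : ∀ H : ℕ, WithPoint D d H = {v | Pool.Agent.R414.EC.toVec v ∈
      Pool.Agent.R414.EB.vbox d H ∧ (Pool.Agent.R414.EC.IsPol v ∧
        ∃ z, Pool.Agent.R414.EF.Pre D v z)} := by
    intro H
    ext v
    unfold WithPoint
    rw [Set.mem_ofPred_eq, Set.mem_ofPred_eq, hsmall]
    rfl
  have e2 : ∀ (H : ℕ) (z : ℚ), OnlyPoint D d H z = {v | Pool.Agent.R414.EC.toVec v ∈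
      Pool.Agent.R414.EB.vbox d H ∧ (Pool.Agent.R414.EC.IsPol v ∧
        Pool.Agent.R414.EC.pol ℂ v z = z ∧ ∀ w, Pool.Agent.R414.EF.Pre D v w → w = z)} := by
    intro H z
    ext v
    unfold OnlyPoint
    rw [Set.mem_ofPred_eq, Set.mem_ofPred_eq, hsmall]
    rfl
  have hS' : Tendsto (fun H : ℕ => ((WithPoint D d H).ncard : ℝ) / (H : ℝ) ^ (d + 1)) atTop
      (𝓝 κ) := by
    refine hS.congr fun H => ?_
    rw [e1]
  refine ⟨κ, fun z => a z / κ, hκ, fun z => div_pos (ha z) hκ, ?_, hS', fun z => ?_⟩
  · have := hsum.div_const κ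
    rwa [div_self hκ.ne'] at this
  · have h1 := (hE z).div hS' hκ.ne'
    refine h1.congr' ?_
    filter_upwards [eventually_ge_atTop 1] with H hH
    have hH0 : (0 : ℝ) < (H : ℝ) ^ (d + 1) := by
      have : (0 : ℝ) < H := by exact_mod_cast hH
      positivity
    rw [e2]
    exact div_div_div_cancel_right₀ hH0.ne' _ _

end Pool.Agent.Results.MP_90787a_nt.FixedPointLimitLaw
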