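import Pool.Agent.R414.EC.Pol

/-!
# The number of polynomials over `ℚ` with at least `k` preperiodic points of bounded degree

For all `D, k ≥ 1` and all `d ≥ d₀(D, k)`: the number of the integral vectors `(b, c_0, ..., c_d)` with
entries of absolute value at most `H` and `b c_d ≠ 0` for which the polynomial
`(c_0 + c_1 z + ... + c_d z^d) / b` of degree `d` has at least `k` preperiodic points of degree at
most `D` over `ℚ` (besides `∞`) has the exact order of magnitude `H^(d + 2 - k)`. So every further
preperiodic point costs a factor `H`, and for every `A` all but a proportion `O(H^(-A))` of all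
polynomials of degree `d` over `ℚ` have fewer than `A + 1` such points, for all large `d`.

Proof. Let `S` be the set of the members of the orbits of `k` preperiodic points. The maximal height
`R` in `S` is at most `((d + 2) H)^D`. Given `k` elements of `S`, one of them of height `R`, and their
images, which are of height at most `R`, the number of the polynomials is
`O(H · H^(d + 1 - k) R^(-B))`: the integral polynomials which vanish at `k` given points are counted by
a maximal minor, and small polynomials have no zero of large height. Then the bounds are summed.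
The lower bound: the polynomials which vanish at `0, 1, ..., k - 1`.
-/

set_option autoImplicit false

namespace Pool.Agent.Results.MP_90787a_nt.PolynomialsManyPoints

/-- The integral vectors `(b, c_0, ..., c_d)`. -/
abbrev Coeffs (d : ℕ) : Type := ℤ × (Fin (d + 1) → ℤ)

/-- All entries have absolute value at most `H`. -/
def Small {d : ℕ} (H : ℕ) (v : Coeffs d) : Prop := |v.1| ≤ H ∧ ∀ i, |v.2 i| ≤ H

/-- The polynomial map `z ↦ (c_0 + c_1 z + ... + c_d z^d) / b`. -/
noncomputable def poly {d : ℕ} (v : Coeffs d) (z : ℂ) : ℂ :=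
  (∑ i, (v.2 i : ℂ) * z ^ (i : ℕ)) / v.1

/-- The map is defined and has degree `d`: `b ≠ 0` and `c_d ≠ 0`. -/
def HasDegree {d : ℕ} (v : Coeffs d) : Prop := v.1 ≠ 0 ∧ v.2 (Fin.last d) ≠ 0

/-- The map has at least `k` preperiodic points `z ≠ ∞` of degree at most `D` over `ℚ`: there are `k`
different numbers, each of them in some number field of degree at most `D` (the fields may be
different), such that two different iterates of each of them are equal. -/
def HasPreperiodicPoints {d : ℕ} (D k : ℕ) (v : Coeffs d) : Prop :=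
  ∃ z : Fin k → ℂ, Function.Injective z ∧
    ∀ i, (∃ K : IntermediateField ℚ ℂ, FiniteDimensional ℚ K ∧ Module.finrank ℚ K ≤ D ∧ z i ∈ K) ∧
      ∃ m n : ℕ, m < n ∧ (poly v)^[n] (z i) = (poly v)^[m] (z i)

/-- **The polynomials over `ℚ` with at least `k` preperiodic points of degree at most `D`.** For all
`D, k ≥ 1` and all `d ≥ d₀(D, k)` the number of the integral vectors with entries of absolute value at
most `H` which give polynomials of degree `d` with at least `k` preperiodic points of degree at most
`D` over `ℚ` is at most `C H^(d + 2 - k)`, and already the number of those with at least `k` rational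
preperiodic points is at least `c H^(d + 2 - k)`, `c > 0`, for all large `H`. -/
theorem result (D k : ℕ) (hD : 1 ≤ D) (hk : 1 ≤ k) : ∃ d₀ : ℕ, ∀ d, d₀ ≤ d →
    ∃ (c C : ℝ) (H₀ : ℕ), 0 < c ∧ 0 < C ∧
      (∀ H : ℕ, 1 ≤ H →
        (({v | Small H v ∧ HasDegree v ∧ HasPreperiodicPoints D k v} : Set (Coeffs d)).ncard : ℝ) ≤
          C * (H : ℝ) ^ (d + 2 - k)) ∧
      (∀ H : ℕ, H₀ ≤ H → c * (H : ℝ) ^ (d + 2 - k) ≤
        (({v | Small H v ∧ HasDegree v ∧ HasPreperiodicPoints 1 k v} :
          Set (Coeffs d)).ncard : ℝ)) := by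
  obtain ⟨d₀, hd₀⟩ := Pool.Agent.R414.EC.final D k hD hk
  refine ⟨d₀, fun d hd => ?_⟩
  obtain ⟨c, C, H₀, hc, hC, h1, h2⟩ := hd₀ d hd
  have hset : ∀ (D H : ℕ), ({v | Small H v ∧ HasDegree v ∧ HasPreperiodicPoints D k v} :
      Set (Coeffs d)) = {v | Pool.Agent.R414.EC.toVec v ∈ Pool.Agent.R414.EB.vbox d H ∧
        (Pool.Agent.R414.EC.IsPol v ∧ Pool.Agent.R414.EC.PreC D k v)} := by
    intro D H
    ext v
    rw [Set.mem_ofPred_eq, Set.mem_ofPred_eq, Pool.Agent.R414.EB.mem_vbox]
    have h3 : |(Pool.Agent.R414.EC.toVec v).2.1| ≤ (H : ℤ) := by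
      simp [Pool.Agent.R414.EC.toVec]
    constructor
    · rintro ⟨⟨h4, h5⟩, h6, h7⟩
      exact ⟨⟨h4, h3, h5⟩, h6, h7⟩
    · rintro ⟨⟨h4, -, h5⟩, h6, h7⟩
      exact ⟨⟨h4, h5⟩, h6, h7⟩
  refine ⟨c, C, H₀, hc, hC, fun H hH => ?_, fun H hH => ?_⟩
  · rw [hset]
    exact h1 H hH
  · rw [hset]
    exact h2 H hH

end Pool.Agent.Results.MP_90787a_nt.PolynomialsManyPoints
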