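import Pool.Agent.Results.MP_90787a_nt.FewExceptionalClasses
import Pool.Agent.R559.NP.DynK
import Pool.Agent.R559.NP.Near3

/-!
# Uniform boundedness over a number field for all rational maps near a given point

Let `K` be a number field and let `φ` be any map from the rational maps of degree `d ≥ 2` over `K` to a metric space `X`
which takes the same value on maps conjugate over `K`, for example the point of the moduli space over a completion of `K`.
For all `ξ ∈ X` outside a set of Hausdorff dimension zero, all `τ > 0` and all `κ` there is `M` such that EVERY rational map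
`F` of degree `d` over `K` of height `H(F)` with `dist (φ F) ξ ≤ κ H(F) ^ (-τ)` has at most `M` preperiodic points in
`P¹(K)`.  All these maps but those in finitely many conjugacy classes have at most `N` preperiodic points in `P¹(K)`, with
`N` independent of `κ` and of `K`, for all `K` of degree at most `D`.
-/

set_option autoImplicit false

namespace Pool.Agent.Results.MP_90787a_nt.UniformBoundNearAPoint

open Filter Topology
open FewExceptionalClasses (Qbar act preperiodic height Pair)

variable {d : ℕ}

section
variable {K : Type} [Field K]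

/-- The maps are conjugate over `K`: for an invertible matrix `A` over `K` we have `G (A v) = A (F v)` in the projective
line over `K` for all `v`. -/
def ConjugateOver (F G : Fin 2 → Fin (d + 1) → K) : Prop :=
  ∃ A : Matrix (Fin 2) (Fin 2) K, A.det ≠ 0 ∧ ∀ v : Fin 2 → K, v ≠ 0 → ∃ c : K, c ≠ 0 ∧
    act G (A.mulVec v) = c • A.mulVec (act F v)

end

section
variable {K : IntermediateField ℚ Qbar}

/-- The two forms have no common zero in the projective line over the algebraic numbers: they define an endomorphism of the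
projective line of degree `d` over `K`. -/
def IsEndomorphism (F : Fin 2 → Fin (d + 1) → K) : Prop :=
  ∀ v : Fin 2 → Qbar, act (fun i j => (F i j : Qbar)) v = 0 → v = 0

lemma ac_coe (F : Fin 2 → Fin (d + 1) → K) (v : Fin 2 → K) :
    act (fun i j => (F i j : Qbar)) (fun i => (v i : Qbar)) = fun i => ((act F v i : K) : Qbar) :=
  (Pool.Agent.R323.ac_map (algebraMap K Qbar) F v).symm

lemma act_ne {F : Fin 2 → Fin (d + 1) → K} (hF : IsEndomorphism F) (v : Fin 2 → K) (hv : v ≠ 0) :
    act F v ≠ 0 := by
  intro h
  apply hv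
  have h1 : act (fun i j => (F i j : Qbar)) (fun i => (v i : Qbar)) = 0 := by
    rw [ac_coe, h]
    funext i
    simp
  have h2 := hF _ h1
  funext i
  have h3 := congrFun h2 i
  simpa using h3

/-- conjugate over the compositum `K ⊔ K` implies conjugate over `K` -/
lemma conj_of [NumberField K] {F G : Fin 2 → Fin (d + 1) → K} (hF : IsEndomorphism F)
    (h : FewExceptionalClasses.Conjugate (⟨K, F⟩ : Pair d) (⟨K, G⟩ : Pair d)) : ConjugateOver F G := by
  obtain ⟨A, hA, hdet, h⟩ := h
  have hA' : ∀ i j, A i j ∈ K := by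
    intro i j
    have := hA i j
    simpa using this
  let B : Matrix (Fin 2) (Fin 2) K := fun i j => ⟨A i j, hA' i j⟩
  have hBA : ∀ v : Fin 2 → K, A.mulVec (fun i => (v i : Qbar)) = fun i => ((B.mulVec v i : K) : Qbar) := by
    intro v
    funext i
    simp only [Matrix.mulVec, dotProduct, Fin.sum_univ_two]
    push_cast
    rfl
  have hBdet : B.det ≠ 0 := by
    intro h0
    apply hdet
    have h1 : ((B.det : K) : Qbar) = A.det := by
      rw [Matrix.det_fin_two, Matrix.det_fin_two]
      push_cast
      rfl
    rw [← h1, h0]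
    simp
  refine ⟨B, hBdet, fun v hv => ?_⟩
  have hv' : (fun i => (v i : Qbar)) ≠ 0 := by
    intro h0
    apply hv
    funext i
    have := congrFun h0 i
    simpa using this
  obtain ⟨c, hc, h1⟩ := h _ hv'
  have h1' : act (fun i j => (G i j : Qbar)) (A.mulVec (fun i => (v i : Qbar))) =
      c • A.mulVec (act (fun i j => (F i j : Qbar)) (fun i => (v i : Qbar))) := h1
  rw [hBA, ac_coe, ac_coe, hBA] at h1'
  -- `c` lies in `K`
  have hw : B.mulVec (act F v) ≠ 0 := Pool.Agent.R559.NP.mulVec_ne hBdet (act_ne hF v hv)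
  obtain ⟨i, hi⟩ : ∃ i, B.mulVec (act F v) i ≠ 0 := by
    by_contra hcon
    push Not at hcon
    exact hw (funext hcon)
  have hi' : ((B.mulVec (act F v) i : K) : Qbar) ≠ 0 := by
    simpa using hi
  have h2 := congrFun h1' i
  simp only [Pi.smul_apply, smul_eq_mul] at h2
  have hcK : c = ((act G (B.mulVec v) i / B.mulVec (act F v) i : K) : Qbar) := by
    push_cast
    rw [h2]
    field_simp
  refine ⟨act G (B.mulVec v) i / B.mulVec (act F v) i, ?_, ?_⟩
  · intro h0
    apply hc
    rw [hcK, h0]
    simp
  · funext k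
    have h3 := congrFun h1' k
    rw [hcK] at h3
    simp only [Pi.smul_apply, smul_eq_mul] at h3 ⊢
    exact_mod_cast h3

end

/-- conjugacy classes over `K` -/
def st (d : ℕ) (K : Type) [Field K] : Setoid (Fin 2 → Fin (d + 1) → K) where
  r F G := ConjugateOver F G
  iseqv := ⟨Pool.Agent.R559.NP.Cj.refl, Pool.Agent.R559.NP.Cj.symm, Pool.Agent.R559.NP.Cj.trans⟩

/-- **Theorem.** Let `K` be a number field, `d ≥ 2` and let `φ` be a map from the pairs of binary forms of degree `d` over `K`
to a metric space `X`, which takes the same value on pairs conjugate over `K`.  For all `ξ ∈ X` outside a set of Hausdorff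
dimension zero and all `τ > 0`
(1) for every `κ` there is `M` such that every endomorphism `F` of the projective line of degree `d` over `K` of height at
most `T` with `dist (φ F) ξ ≤ κ T ^ (-τ)` has at most `M` preperiodic points in `P¹(K)`;
(2) there is `N` such that for every `κ` the endomorphisms of degree `d` over `K` of height at most `T` with
`dist (φ F) ξ ≤ κ T ^ (-τ)` and more than `N` preperiodic points in `P¹(K)` lie in finitely many conjugacy classes. -/
theorem result (K : IntermediateField ℚ Qbar) [NumberField K] (d : ℕ) (hd : 2 ≤ d) (X : Type) [MetricSpace X]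
    (φ : (Fin 2 → Fin (d + 1) → K) → X) (hφ : ∀ F G, ConjugateOver F G → φ F = φ G) :
    ∃ E : Set X, dimH E = 0 ∧ ∀ ξ : X, ξ ∉ E → ∀ τ : ℝ, 0 < τ →
      (∀ κ : ℝ, ∃ M : ℕ, ∀ F : Fin 2 → Fin (d + 1) → K, IsEndomorphism F → ∀ T : ℕ, 1 ≤ T →
        height F ≤ T → dist (φ F) ξ ≤ κ * (T : ℝ) ^ (-τ) → (preperiodic F).encard ≤ M) ∧
      (∃ N : ℕ, ∀ κ : ℝ, ∃ S : Finset (Fin 2 → Fin (d + 1) → K), ∀ F : Fin 2 → Fin (d + 1) → K,
        IsEndomorphism F → ∀ T : ℕ, 1 ≤ T → height F ≤ T →
        dist (φ F) ξ ≤ κ * (T : ℝ) ^ (-τ) → (N : ℕ∞) < (preperiodic F).encard →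
        ∃ G ∈ S, ConjugateOver G F) := by
  classical
  have hres := fun j : ℕ =>
    FewExceptionalClasses.result (Module.finrank ℚ K) d hd (1 / ((j : ℝ) + 1)) (by positivity)
  choose N C hN using hres
  have hK : Countable K := (Module.finBasis ℚ K).equivFun.injective.countable
  have hct : Countable (Quotient (st d K)) := Quotient.countable
  obtain ⟨E, hE, hE'⟩ := Pool.Agent.R559.NP.near_zero_lvl (Z := Quotient (st d K)) (Y := Unit) (X := X)
    (F := fun j _ T => {z | ∃ F : Fin 2 → Fin (d + 1) → K, Quotient.mk (st d K) F = z ∧ IsEndomorphism F ∧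
      height F ≤ T ∧ (N j : ℕ∞) < (preperiodic F).encard})
    (by
      rintro j - t t' htt z ⟨F, h1, h2, h3, h4⟩
      exact ⟨F, h1, h2, h3.trans (by exact_mod_cast htt), h4⟩)
    (s := fun j => 1 / ((j : ℝ) + 1)) (fun j => by positivity) tendsto_one_div_add_atTop_nhds_zero_nat
    (by
      intro j _
      refine ⟨|C j|, fun T hT => ?_⟩
      set Q : Set (Quotient (st d K)) := {z | ∃ F : Fin 2 → Fin (d + 1) → K, Quotient.mk (st d K) F = z ∧
        IsEndomorphism F ∧ height F ≤ T ∧ (N j : ℕ∞) < (preperiodic F).encard} with hQ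
      have key : ∀ P : Finset (Quotient (st d K)), (∀ z ∈ P, z ∈ Q) →
          (P.card : ℝ) ≤ C j * (T : ℝ) ^ (1 / ((j : ℝ) + 1)) := by
        intro P hP
        choose! g hg using hP
        let g' : Quotient (st d K) → Pair d := fun z => ⟨K, g z⟩
        have hinj : Set.InjOn g' P := by
          intro z hz z' hz' he
          have he' : g z = g z' := by
            have := he
            simp only [g', Pair.mk.injEq, heq_eq_eq, true_and] at this
            exact this
          rw [← (hg z hz).1, ← (hg z' hz').1, he']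
        rw [← Finset.card_image_of_injOn hinj]
        refine hN j T hT (P.image g') ?_ ?_
        · intro F hF
          obtain ⟨z, hz, rfl⟩ := Finset.mem_image.1 hF
          obtain ⟨-, h2, h3, h4⟩ := hg z hz
          exact ⟨h2, le_rfl, h3, h4⟩
        · intro F hF G hG hne hc
          obtain ⟨z, hz, rfl⟩ := Finset.mem_image.1 hF
          obtain ⟨z', hz', rfl⟩ := Finset.mem_image.1 hG
          apply hne
          have : z = z' := by
            rw [← (hg z hz).1, ← (hg z' hz').1]
            exact Quotient.sound (s := st d K) (conj_of (hg z hz).2.1 hc)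
          rw [this]
      have hfin : Q.Finite := by
        by_contra hinf
        obtain ⟨P, hP1, hP2⟩ := (show Q.Infinite from hinf).exists_subset_card_eq
          (⌊C j * (T : ℝ) ^ (1 / ((j : ℝ) + 1))⌋₊ + 1)
        have h2 := key P (fun x hx => hP1 hx)
        rw [hP2] at h2
        push_cast at h2
        have h3 := Nat.lt_floor_add_one (C j * (T : ℝ) ^ (1 / ((j : ℝ) + 1)))
        linarith
      refine ⟨hfin, ?_⟩
      rw [Set.ncard_eq_toFinset_card _ hfin]
      refine (key hfin.toFinset (fun x hx => by
        rw [Set.Finite.mem_toFinset] at hx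
        exact hx)).trans ?_
      exact mul_le_mul_of_nonneg_right (le_abs_self _) (by positivity))
    (fun _ z => Quotient.lift φ hφ z)
  refine ⟨E, hE, fun ξ hξ τ hτ => ?_⟩
  obtain ⟨j, hj⟩ := hE' ξ hξ τ hτ
  have hmem : ∀ (κ : ℝ) (F : Fin 2 → Fin (d + 1) → K), IsEndomorphism F → ∀ T : ℕ, 1 ≤ T →
      height F ≤ T → dist (φ F) ξ ≤ κ * (T : ℝ) ^ (-τ) → (N j : ℕ∞) < (preperiodic F).encard →
      Quotient.mk (st d K) F ∈ (hj () κ).toFinset := by
    intro κ F hF T hT hc hd' hn
    rw [Set.Finite.mem_toFinset]
    exact ⟨T, hT, ⟨F, rfl, hF, hc, hn⟩, hd'⟩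
  constructor
  · intro κ
    -- the bounds for the classes
    have hb : ∀ z : Quotient (st d K), ∃ M : ℕ, ∀ F, Quotient.mk (st d K) F = z → IsEndomorphism F →
        (preperiodic F).encard ≤ M := by
      intro z
      by_cases h : ∃ F, Quotient.mk (st d K) F = z ∧ IsEndomorphism F
      · obtain ⟨F, h1, h2⟩ := h
        obtain ⟨M, hM⟩ := Pool.Agent.R559.NP.pre_bound (K := K) hd (c := F) (algebraMap K Qbar) h2
        refine ⟨M, fun G hG hG' => ?_⟩
        have hc : ConjugateOver G F := Quotient.exact (s := st d K) (hG.trans h1.symm)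
        exact (Pool.Agent.R559.NP.Cj.pre (act_ne hG') hc).trans hM
      · exact ⟨0, fun F h1 h2 => absurd ⟨F, h1, h2⟩ h⟩
    choose b hb using hb
    refine ⟨max (N j) ((hj () κ).toFinset.sup b), fun F hF T hT hc hd' => ?_⟩
    rcases le_or_gt (preperiodic F).encard (N j : ℕ∞) with h | h
    · exact h.trans (by exact_mod_cast le_max_left _ _)
    · have h1 := hmem κ F hF T hT hc hd' h
      have h2 := hb _ F rfl hF
      have h3 : b (Quotient.mk (st d K) F) ≤ (hj () κ).toFinset.sup b := Finset.le_sup h1
      refine h2.trans ?_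
      exact_mod_cast h3.trans (le_max_right _ _)
  · refine ⟨N j, fun κ => ⟨(hj () κ).toFinset.image Quotient.out, fun F hF T hT hc hd' hn => ?_⟩⟩
    refine ⟨(Quotient.mk (st d K) F).out, Finset.mem_image_of_mem _ (hmem κ F hF T hT hc hd' hn), ?_⟩
    exact Quotient.exact (s := st d K) (Quotient.out_eq _)

end Pool.Agent.Results.MP_90787a_nt.UniformBoundNearAPoint
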